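import Pool.Agent.Helper676.PC16

set_option autoImplicit false

/-! The uniqueness theorem in abstract form, without knowledge of the boundary trace of the
coefficients: the relative difference of the coefficients attains its maximum on the boundary.
Adapted from `Pool.Agent.Helper676.PC.core` (a starting file). -/

namespace Pool.Agent.Y333.PC

open MeasureTheory Filter Topology Set InnerProductSpace Metric Pool.Agent.Helper676.PC

variable {n : ℕ}

/-- equality of the final states: maximum principle for the relative difference of the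
coefficients -/
theorem core (hn : 0 < n) {K : ℝ} (hK : 1 ≤ K) {Ω : Set (E n)} (hΩ : IsOpen Ω)
    (hb : Bornology.IsBounded Ω) {r0 : ℝ} (hr0 : 0 < r0)
    (hcork : ∀ y ∈ frontier Ω, ∀ r : ℝ, 0 < r → r ≤ r0 → ∃ z : E n, ball z (r / 8) ⊆ ball y r \ Ω)
    {T : ℝ} (hT : 0 < T) :
    ∃ (χ : ℝ → ℝ) (c : ℝ), Continuous χ ∧ χ 0 = 0 ∧
      ∀ (a1 a2 : E n → ℝ) (u1 u1t u2 u2t : E n → ℝ → ℝ),
        ContinuousOn a1 (closure Ω) → ContinuousOn a2 (closure Ω) →
        ContDiffOn ℝ 1 a1 Ω → ContDiffOn ℝ 1 a2 Ω →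
        (∀ x ∈ closure Ω, K⁻¹ ≤ a1 x ∧ a1 x ≤ K) → (∀ x ∈ closure Ω, K⁻¹ ≤ a2 x ∧ a2 x ≤ K) →
        HS Ω 0 T a1 u1 u1t (GG χ c T) → HS Ω 0 T a2 u2 u2t (GG χ c T) →
        (∀ x ∈ Ω, HasDerivWithinAt (u1 x) (u1t x T) (Ioc 0 T) T) →
        (∀ x ∈ Ω, HasDerivWithinAt (u2 x) (u2t x T) (Ioc 0 T) T) →
        (∀ x ∈ Ω, u1 x T = u2 x T) → ∀ θ : ℝ, 0 ≤ θ →
        (∀ x ∈ frontier Ω, |a1 x - a2 x| ≤ θ * a1 x) → ∀ x ∈ Ω, |a1 x - a2 x| ≤ θ * a1 x := by
  have hK0 : 0 < K := by linarith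
  obtain ⟨χ, C0, hC0, hχc, hχnn, hχ0, hχ1, hκ⟩ := kappa_bounds T hT
  obtain ⟨C, hC, hsup⟩ := sup_diff hn hK hΩ hb hr0 hcork (t0 := 3 * T / 16) (T := T) (by linarith)
  obtain ⟨c0, hc0, hlow⟩ := lower_bound hn hK hΩ hb (e1 := T / 16) (by positivity)
  set c := max 1 (max c0 (8 * ((4 + 4 * C * K) * C0) / (3 * T))) with hc
  have hc1 : 1 ≤ c := le_max_left _ _
  have hc2 : c0 ≤ c := (le_max_left _ _).trans (le_max_right _ _)
  have hc3 : 8 * ((4 + 4 * C * K) * C0) / (3 * T) ≤ c := (le_max_right _ _).trans (le_max_right _ _)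
  clear_value c
  have hcpos : 0 < c := by linarith
  refine ⟨χ, c, hχc, hχ0 0 (by linarith), ?_⟩
  intro a1 a2 u1 u1t u2 u2t ha1c ha2c ha1 ha2 ha1K ha2K h1 h2 hd1 hd2 hT12 θ hθ hbd
  set B0 := C0 * (1 + c) * Real.exp (-(c * T / 2)) with hB0
  have hB0pos : 0 < B0 := by positivity
  have hpos1 : ∀ x ∈ Ω, 0 < a1 x := fun x hx =>
    (inv_pos.2 hK0).trans_le (ha1K x (subset_closure hx)).1
  have hpos2 : ∀ x ∈ Ω, 0 < a2 x := fun x hx =>
    (inv_pos.2 hK0).trans_le (ha2K x (subset_closure hx)).1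
  -- main inequality on constants
  have hmain : (2 + 2 * C * K) * B0 < c * Real.exp (-(2 * (T / 16) * c)) := by
    have e1 : Real.exp (-(c * T / 2)) = Real.exp (-(2 * (T / 16) * c)) *
        (Real.exp (3 * c * T / 8))⁻¹ := by
      rw [← Real.exp_neg, ← Real.exp_add]; congr 1; ring
    have e2 : (4 + 4 * C * K) * C0 < Real.exp (3 * c * T / 8) := by
      have := Real.add_one_le_exp (3 * c * T / 8)
      rw [div_le_iff₀ (by positivity)] at hc3
      linarith
    have e3 : 0 < Real.exp (-(2 * (T / 16) * c)) := Real.exp_pos _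
    have e4 : 0 < Real.exp (3 * c * T / 8) := Real.exp_pos _
    rw [hB0, e1]
    have e5 : (2 + 2 * C * K) * (C0 * (1 + c)) * (Real.exp (3 * c * T / 8))⁻¹ < c := by
      rw [← div_eq_mul_inv, div_lt_iff₀ e4]
      have e6 : (2 + 2 * C * K) * (C0 * (1 + c)) ≤ c * ((4 + 4 * C * K) * C0) := by
        have : 0 ≤ (2 + 2 * C * K) * C0 := by positivity
        nlinarith
      calc _ ≤ _ := e6
        _ < _ := mul_lt_mul_of_pos_left e2 hcpos
    calc (2 + 2 * C * K) * (C0 * (1 + c) * (Real.exp (-(2 * (T / 16) * c)) *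
          (Real.exp (3 * c * T / 8))⁻¹))
        = ((2 + 2 * C * K) * (C0 * (1 + c)) * (Real.exp (3 * c * T / 8))⁻¹) *
          Real.exp (-(2 * (T / 16) * c)) := by ring
      _ < _ := mul_lt_mul_of_pos_right e5 e3
  -- small `s`
  have hsmall : ∀ᶠ s in 𝓝[>] (0 : ℝ), 0 < s ∧ s < T / 8 ∧ Real.exp (c * s) ≤ 2 := by
    have h3 : 0 < min (T / 8) (Real.log 2 / c) := by
      have := Real.log_pos one_lt_two
      positivity
    filter_upwards [Ioo_mem_nhdsGT h3] with s hs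
    refine ⟨hs.1, hs.2.trans_le (min_le_left _ _), ?_⟩
    have h4 : s < Real.log 2 / c := hs.2.trans_le (min_le_right _ _)
    rw [lt_div_iff₀ hcpos] at h4
    calc Real.exp (c * s) ≤ Real.exp (Real.log 2) := Real.exp_le_exp.2 (by linarith)
      _ = 2 := Real.exp_log two_pos
  have hTm : T ∈ Icc (3 * T / 16) T := ⟨by linarith, le_rfl⟩
  -- (i)
  have hi : ∀ x ∈ Ω, |u1t x T - c * u1 x T| ≤ B0 := by
    intro x hx
    refine le_of_tendsto (limit_p (c := c) hT (hd1 x hx)).abs ?_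
    filter_upwards [hsmall] with s hs
    obtain ⟨k1, k2⟩ := hκ c s hcpos.le hs.1 hs.2.2
    obtain ⟨_, q2, _⟩ := pbounds hΩ hb hT ha1 hpos1 hχ0 h1 hs.1 hs.2.1 hB0pos.le k1 k2
    exact q2 x (subset_closure hx) T hTm
  -- (ii)
  have hGT : GG χ c T T = 1 := by
    simp only [GG]
    rw [hχ1 T (by linarith)]; simp
  have hGnn : ∀ t, 0 ≤ GG χ c T t := fun t => mul_nonneg (hχnn t) (Real.exp_pos _).le
  have hTI : T ∈ Ioc 0 T := ⟨hT, le_rfl⟩
  have hTI' : T ∈ Icc 0 T := ⟨hT.le, le_rfl⟩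
  have hU0 : ∀ x ∈ closure Ω, 0 ≤ u1 x T := by
    intro x hx
    have h3 := (h1.comb hΩ ha1 (t1 := 0) le_rfl (by linarith) (-1) 0 h1.w0
      (fun x hx => by rw [sub_zero]; exact h1.w0 x hx)).le hΩ hb hT ha1 hpos1 le_rfl
      (fun t ht => by
        have := hGnn t
        linarith) x hx T hTI'
    linarith
  have hii : ∀ x ∈ Ω, Real.exp (-(2 * (T / 16) * c)) ≤ u1 x T + B0 / c := by
    refine hlow c hc2 a1 (fun x => u1 x T) (B0 / c) (by positivity) ha1.continuousOn
      (fun x hx => ha1K x (subset_closure hx)) ((h1.w2 T hTI).of_le (by norm_num))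
      (h1.wC.comp (f := fun x : E n => (x, T)) (by fun_prop) (fun x hx => ⟨hx, hTI'⟩))
      (fun x hx => hU0 x (subset_closure hx))
      (fun x hx => by rw [h1.wb x hx T hTI', hGT]) ?_
    intro ψ g1 g2 g3 g4
    rw [h1.weak hΩ ha1 hTI g1 g2 g3, neg_neg, ← integral_const_mul]
    have c1 : ContinuousOn (fun x => u1t x T) Ω :=
      h1.wtC.comp (f := fun x : E n => (x, T)) (by fun_prop) (fun x hx => ⟨hx, hTI⟩)
    have c2 : ContinuousOn (fun x => u1 x T) Ω := (h1.w2 T hTI).continuousOn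
    have i0 : ∀ f : E n → ℝ, ContinuousOn f Ω → Integrable (fun x => f x * ψ x) := by
      intro f hf
      have := glue0 (F := fun x => f x * ψ x) hΩ g2.isCompact g3
        (hf.mul g1.continuous.continuousOn)
        (fun x hx => by rw [image_eq_zero_of_notMem_tsupport hx, mul_zero])
      exact this.1.integrable_of_hasCompactSupport this.2
    apply integral_mono (i0 _ c1) ((i0 (fun x => u1 x T + B0 / c)
      (c2.add continuousOn_const)).const_mul c)
    intro x
    simp only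
    by_cases hx : x ∈ Ω
    · have h3 := (abs_le.1 (hi x hx)).2
      have h4 : c * ((u1 x T + B0 / c) * ψ x) = (c * u1 x T + B0) * ψ x := by
        field_simp
      rw [h4]
      exact mul_le_mul_of_nonneg_right (by linarith) (g4 x)
    · rw [image_eq_zero_of_notMem_tsupport fun h' => hx (g3 h')]; simp
  -- (iii)
  have hiii : ∀ x ∈ Ω, c * Real.exp (-(2 * (T / 16) * c)) - 2 * B0 ≤ u1t x T := by
    intro x hx
    have h3 := (abs_le.1 (hi x hx)).1
    have h4 := mul_le_mul_of_nonneg_left (hii x hx) hcpos.le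
    have h5 : c * (u1 x T + B0 / c) = c * u1 x T + B0 := by field_simp
    rw [h5] at h4
    linarith
  -- suppose not equal
  by_contra hcon
  push Not at hcon
  obtain ⟨z, hz, hza⟩ := hcon
  have hpos1' : ∀ x ∈ closure Ω, 0 < a1 x := fun x hx => (inv_pos.2 hK0).trans_le (ha1K x hx).1
  set r : E n → ℝ := fun x => (a1 x - a2 x) / a1 x with hr
  have hrc : ContinuousOn r (closure Ω) :=
    (ha1c.sub ha2c).div ha1c fun x hx => (hpos1' x hx).ne'
  have hcpt : IsCompact (closure Ω) :=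
    Metric.isCompact_of_isClosed_isBounded isClosed_closure hb.closure
  obtain ⟨x0, hx0, hmax⟩ := hcpt.exists_isMaxOn ⟨z, subset_closure hz⟩ hrc.abs
  have hmax' : ∀ x ∈ closure Ω, |r x| ≤ |r x0| := fun x hx => hmax hx
  have hrz : θ < |r z| := by
    simp only [hr]
    rw [abs_div, abs_of_pos (hpos1 z hz), lt_div_iff₀ (hpos1 z hz)]
    exact hza
  have hr1' : θ < |r x0| := hrz.trans_le (hmax' z (subset_closure hz))
  have hr0' : 0 < |r x0| := hθ.trans_lt hr1'
  have hx0Ω : x0 ∈ Ω := by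
    by_contra hcon
    have hf : x0 ∈ frontier Ω := by rw [hΩ.frontier_eq]; exact ⟨hx0, hcon⟩
    have h3 : |r x0| ≤ θ := by
      simp only [hr]
      rw [abs_div, abs_of_pos (hpos1' x0 hx0), div_le_iff₀ (hpos1' x0 hx0)]
      exact hbd x0 hf
    exact absurd h3 (not_le.2 hr1')
  -- identity at `x0`
  have hid : u1t x0 T - u2t x0 T = r x0 * u1t x0 T := by
    have h3 := divAGrad_at_max hΩ ha1 ha2 (h1.w2 T hTI) hpos1 hx0Ω
      (fun x hx => hmax' x (subset_closure hx))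
    rw [h1.pde x0 hx0Ω T hTI, h2.pde x0 hx0Ω T hTI]
    have h4 : divAGrad a2 (fun y => u2 y T) x0 = divAGrad a2 (fun y => u1 y T) x0 := by
      unfold divAGrad
      apply Finset.sum_congr rfl
      intro i _
      have e : (fun y => a2 y * fderiv ℝ (fun y => u2 y T) y (EuclideanSpace.single i 1)) =ᶠ[𝓝 x0]
          (fun y => a2 y * fderiv ℝ (fun y => u1 y T) y (EuclideanSpace.single i 1)) := by
        filter_upwards [hΩ.mem_nhds hx0Ω] with y hy
        have : (fun y => u2 y T) =ᶠ[𝓝 y] fun y => u1 y T := by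
          filter_upwards [hΩ.mem_nhds hy] with y' hy'
          exact (hT12 y' hy').symm
        rw [this.fderiv_eq]
      rw [e.fderiv_eq]
    rw [h4]
    exact h3
  -- sup bound
  set M := K * |r x0| with hM
  have hMpos : 0 < M := by positivity
  have hfM : ∀ x ∈ Ω, |a1 x - a2 x| ≤ M := by
    intro x hx
    have hx' := subset_closure hx
    have e : a1 x - a2 x = a1 x * r x := by
      simp only [hr]
      have := (hpos1 x hx).ne'
      field_simp
    rw [e, abs_mul, abs_of_pos (hpos1 x hx)]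
    exact mul_le_mul (ha1K x hx').2 (hmax' x hx') (abs_nonneg _) hK0.le
  have hsupx : |u1t x0 T - u2t x0 T| ≤ C * M * (2 * B0) := by
    have l1 := limit_p (c := c) hT (hd1 x0 hx0Ω)
    have l2 := limit_p (c := c) hT (hd2 x0 hx0Ω)
    have l3 := (l1.sub l2).abs
    have e : u1t x0 T - c * u1 x0 T - (u2t x0 T - c * u2 x0 T) = u1t x0 T - u2t x0 T := by
      rw [hT12 x0 hx0Ω]; ring
    rw [e] at l3
    refine le_of_tendsto l3 ?_
    filter_upwards [hsmall] with s hs
    obtain ⟨k1, k2⟩ := hκ c s hcpos.le hs.1 hs.2.2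
    obtain ⟨p1H, p1B, p1T⟩ := pbounds hΩ hb hT ha1 hpos1 hχ0 h1 hs.1 hs.2.1 hB0pos.le k1 k2
    obtain ⟨p2H, p2B, p2T⟩ := pbounds hΩ hb hT ha2 hpos2 hχ0 h2 hs.1 hs.2.1 hB0pos.le k1 k2
    exact hsup a1 a2 M (2 * B0) _ _ _ (kap χ c T s) hMpos (by positivity) ha2.continuousOn hfM
      (fun t ht => p2H.ell hΩ ha2 (fun x hx => ha2K x (subset_closure hx)) ⟨ht.1, ht.2.le⟩
        hB0pos.le (fun x hx => p2B x hx t ⟨ht.1.le, ht.2.le⟩) (k1 t) (fun x hx => p2T x hx t ht))
      (p1H.par hΩ ha1 ha2 (fun x hx => ha1K x (subset_closure hx)) p2H) x0 hx0Ω T hTm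
  rw [hid, abs_mul] at hsupx
  have h6 : |u1t x0 T| ≤ 2 * C * K * B0 := by
    have h7 : |r x0| * |u1t x0 T| ≤ |r x0| * (2 * C * K * B0) := by
      calc _ ≤ _ := hsupx
        _ = _ := by rw [hM]; ring
    exact le_of_mul_le_mul_left h7 hr0'
  have h8 := hiii x0 hx0Ω
  have h9 := le_abs_self (u1t x0 T)
  have h10 : (2 + 2 * C * K) * B0 = 2 * B0 + 2 * C * K * B0 := by ring
  linarith

end Pool.Agent.Y333.PC
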